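import Pool.Agent.PQP.StmtsZ
import Pool.Agent.Helper59_Vir.Two

/-!
# Squad PQP, row ZIF (helper3)
-/

set_option autoImplicit false

open scoped InnerProductSpace Topology ContDiff Manifold
open MeasureTheory Filter Set

noncomputable section

namespace Pool.Agent.PQP.H3

open Pool.Agent.Helper42_Paneitz Pool.Agent.Helper82_Vir Pool.Agent.FLX

theorem norm_ee4 : ‖ee 4‖ = 1 := by simp [ee]

theorem no_const {q : ℝ → ℝ} {p : E5} (hp : ‖p‖ = 1) (c : ℝ)
    (h : ∀ x : S4, q ⟪p, (x : E5)⟫_ℝ = c) : deriv q 0 = 0 := by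
  have h1 : q =ᶠ[𝓝 0] fun _ => c := by
    filter_upwards [Ioo_mem_nhds (show (-1 : ℝ) < 0 by norm_num) (show (0 : ℝ) < 1 by norm_num)]
      with t ht
    obtain ⟨x, hx⟩ := Helper59_Vir.exists_height hp (Ioo_subset_Icc_self ht)
    rw [← hx]
    exact h x
  rw [h1.deriv_eq]
  simp

theorem sgn {f : ℝ → ℝ} (hf : Continuous f) (h : ∀ s ∈ Ioo (-1 : ℝ) 1, f s ≠ 0) :
    (∀ s ∈ Ioo (-1 : ℝ) 1, 0 < f s) ∨ ∀ s ∈ Ioo (-1 : ℝ) 1, f s < 0 := by
  have h0 : (0 : ℝ) ∈ Ioo (-1 : ℝ) 1 := by constructor <;> norm_num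
  have hpre : IsPreconnected (Ioo (-1 : ℝ) 1) := isPreconnected_Ioo
  rcases lt_or_gt_of_ne (h 0 h0) with h1 | h1
  · refine Or.inr fun s hs => ?_
    by_contra h2
    push Not at h2
    have h3 := hpre.intermediate_value h0 hs hf.continuousOn ⟨h1.le, h2⟩
    obtain ⟨t, ht, ht0⟩ := h3
    exact h t ht ht0
  · refine Or.inl fun s hs => ?_
    by_contra h2
    push Not at h2
    have h3 := hpre.intermediate_value hs h0 hf.continuousOn ⟨h2, h1.le⟩
    obtain ⟨t, ht, ht0⟩ := h3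
    exact h t ht ht0

theorem zif (zex : ZexStmt) : ZifStmt := by
  intro q hq hpos hd1 hd2 hnd
  refine ⟨fun hP => ?_, fun h => zex q hq hpos hd1 hd2 hnd h⟩
  by_contra hno
  push Not at hno
  have hcd : Continuous (deriv q) := hq.continuous_deriv (by simp)
  have h0 : (0 : ℝ) ∈ Ioo (-1 : ℝ) 1 := by constructor <;> norm_num
  rcases sgn hcd hno with hs | hs
  · have h1 : (fun x : S4 => q ⟪ee 4, (x : E5)⟫_ℝ) = fun x : S4 => q ((x : E5) 4) := by
      funext x
      rw [inner_ee']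
    have h2 := (Helper59_Vir.zonal hq norm_ee4 fun t ht _ => (hs t ht).le).1 (by rw [h1]; exact hP)
    obtain ⟨c, _, hc⟩ := h2
    exact hno 0 h0 (no_const norm_ee4 c hc)
  · have hq2 : ContDiff ℝ ∞ fun t => q (-t) := hq.comp contDiff_neg
    have hp : ‖-ee 4‖ = 1 := by rw [norm_neg, norm_ee4]
    have hd : ∀ t, deriv (fun t => q (-t)) t = - deriv q (-t) := fun t => deriv_comp_neg q t
    have h1 : (fun x : S4 => (fun t => q (-t)) ⟪-ee 4, (x : E5)⟫_ℝ) =
        fun x : S4 => q ((x : E5) 4) := by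
      funext x
      simp only [inner_neg_left, neg_neg, inner_ee']
    have h2 := (Helper59_Vir.zonal hq2 hp fun t ht _ => by
      rw [hd]
      have h3 : -t ∈ Ioo (-1 : ℝ) 1 := ⟨by linarith [ht.2], by linarith [ht.1]⟩
      linarith [hs (-t) h3]).1 (by rw [h1]; exact hP)
    obtain ⟨c, _, hc⟩ := h2
    have h4 := no_const (q := fun t => q (-t)) hp c hc
    rw [hd, neg_zero] at h4
    exact hno 0 h0 (by linarith)

end Pool.Agent.PQP.H3
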