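import Pool.Agent.PQP.StmtsX

/-!
# Squad PQP, row INX (helper3)
-/

set_option autoImplicit false

open scoped InnerProductSpace Topology ContDiff Manifold
open MeasureTheory Filter Set

noncomputable section

namespace Pool.Agent.PQP.H3

open Pool.Agent.Helper42_Paneitz Pool.Agent.Helper82_Vir Pool.Agent.FLX

theorem sm_log {Q : S4 → ℝ} (hQ : Sm Q) (h0 : ∀ x, 0 < Q x) : Sm (fun z => Real.log (Q z)) := by
  intro y hy
  have h1 : radialExt (fun z => Real.log (Q z)) =ᶠ[𝓝 y] fun z => Real.log (radialExt Q z) := by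
    filter_upwards [eventually_ne_zero hy] with z hz
    simp only [radialExt_apply _ hz]
  have h2 : radialExt Q y ≠ 0 := by
    rw [radialExt_apply _ hy]
    exact (h0 _).ne'
  exact ((hQ y hy).log h2).congr_of_eventuallyEq h1

theorem inner_le' (b : E5) (y : S4) : |⟪b, (y : E5)⟫_ℝ| ≤ ‖b‖ := by
  have h1 := abs_real_inner_le_norm b (y : E5)
  rwa [S4_norm, mul_one] at h1

theorem one_sub_pos {b : E5} (hb : ‖b‖ < 1) (y : S4) : 0 < 1 - ⟪b, (y : E5)⟫_ℝ := by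
  have h1 := (abs_le.1 (inner_le' b y)).2
  linarith

/-- `1 / (1 - <b, y>)` -/
def uu (b : E5) (y : S4) : ℝ := (1 - ⟪b, (y : E5)⟫_ℝ)⁻¹

theorem uu_mul {b : E5} (hb : ‖b‖ < 1) (y : S4) : uu b y * (1 - ⟪b, (y : E5)⟫_ℝ) = 1 :=
  inv_mul_cancel₀ (one_sub_pos hb y).ne'

theorem sm_uu {b : E5} (hb : ‖b‖ < 1) : Sm (uu b) :=
  sm_of_restrict (fun y => (1 - ⟪b, y⟫_ℝ)⁻¹) fun x =>
    (contDiffAt_const.sub (contDiff_const.inner ℝ contDiff_id).contDiffAt).inv
      (one_sub_pos hb x).ne'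

theorem dd_uu {b : E5} (hb : ‖b‖ < 1) (y : S4) (v : E5) :
    dd (uu b) y v = uu b y ^ 2 * (⟪b, v⟫_ℝ - ⟪b, (y : E5)⟫_ℝ * ⟪(y : E5), v⟫_ℝ) := by
  have hw : Sm (fun z : S4 => 1 - ⟪b, (z : E5)⟫_ℝ) := sm_sub (sm_const 1) (sm_inner b)
  have h1 := dd_mul (sm_uu hb) hw y v
  have h2 : (fun z : S4 => uu b z * (1 - ⟪b, (z : E5)⟫_ℝ)) = fun _ => 1 := by
    funext z
    exact uu_mul hb z
  rw [h2, dd_const, dd_fun_sub (sm_const 1) (sm_inner b), dd_const, dd_inner] at h1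
  have h3 := uu_mul hb y
  have h4 : dd (uu b) y v = uu b y * ((1 - ⟪b, (y : E5)⟫_ℝ) * dd (uu b) y v) := by
    rw [← mul_assoc, h3, one_mul]
  rw [h4]
  have h5 : (1 - ⟪b, (y : E5)⟫_ℝ) * dd (uu b) y v =
      uu b y * (⟪b, v⟫_ℝ - ⟪b, (y : E5)⟫_ℝ * ⟪(y : E5), v⟫_ℝ) := by linarith
  rw [h5]
  ring

theorem bubv_eq (b : E5) (y : S4) : bubv b y = (1 - ‖b‖ ^ 2) ^ 2 * uu b y ^ 4 := by
  unfold bubv uu
  rw [inv_pow, div_eq_mul_inv]

theorem sm_pow4 {f : S4 → ℝ} (hf : Sm f) : Sm (fun z => f z ^ 4) :=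
  sm_comp hf (φ := fun t => t ^ 4) (contDiff_id.pow 4)

theorem sm_bubv {b : E5} (hb : ‖b‖ < 1) : Sm (bubv b) := by
  have h1 : bubv b = fun z => (fun _ : S4 => (1 - ‖b‖ ^ 2) ^ 2) z * (fun z => uu b z ^ 4) z := by
    funext z
    exact bubv_eq b z
  rw [h1]
  exact sm_mul (sm_const _) (sm_pow4 (sm_uu hb))

theorem dd_bubv {b : E5} (hb : ‖b‖ < 1) (y : S4) (v : E5) :
    dd (bubv b) y v =
      4 * bubv b y * uu b y * (⟪b, v⟫_ℝ - ⟪b, (y : E5)⟫_ℝ * ⟪(y : E5), v⟫_ℝ) := by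
  have h1 : bubv b = fun z => (1 - ‖b‖ ^ 2) ^ 2 * (fun z => uu b z ^ 4) z := by
    funext z
    exact bubv_eq b z
  have h2 : dd (bubv b) y v = (1 - ‖b‖ ^ 2) ^ 2 * dd (fun z => uu b z ^ 4) y v := by
    rw [h1]
    exact dd_fun_smul _ (sm_pow4 (sm_uu hb)) y v
  have h3 : dd (fun z => uu b z ^ 4) y v = deriv (fun t : ℝ => t ^ 4) (uu b y) * dd (uu b) y v :=
    dd_comp (sm_uu hb) (φ := fun t => t ^ 4) (contDiff_id.pow 4) y v
  have h4 : deriv (fun t : ℝ => t ^ 4) (uu b y) = 4 * uu b y ^ 3 := by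
    have := (hasDerivAt_pow 4 (uu b y)).deriv
    simpa using this
  rw [h2, h3, h4, dd_uu hb, bubv_eq]
  ring

theorem integral_dd {G : S4 → ℝ} (hG : Sm G) (a : E5) :
    ∫ y, dd G y a ∂sig = 4 * ∫ y : S4, ⟪a, (y : E5)⟫_ℝ * G y ∂sig := by
  have hcoord : ∀ j : Fin 5, Continuous fun y : S4 => (y : E5) j := by
    intro j
    have h1 : Continuous fun v : E5 => v j := by fun_prop
    exact h1.comp continuous_subtype_val
  have h1 : ∀ y, dd G y a = ∑ i : Fin 5, a i * dd G y (ee i) := fun y => dd_eq_sum G y a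
  have h2 : ∀ y : S4, ⟪a, (y : E5)⟫_ℝ * G y = ∑ i : Fin 5, a i * ((y : E5) i * G y) := by
    intro y
    rw [← sum_mul a (y : E5), Finset.sum_mul]
    exact Finset.sum_congr rfl fun i _ => by ring
  simp only [h1, h2]
  have h3 := integral_finsetSum (μ := sig) Finset.univ
    (f := fun (i : Fin 5) (y : S4) => a i * dd G y (ee i)) fun i _ =>
      (integrable_cont (continuous_of_sm (sm_dd hG (ee i)))).const_mul (a i)
  have h4 := integral_finsetSum (μ := sig) Finset.univ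
    (f := fun (i : Fin 5) (y : S4) => a i * ((y : E5) i * G y)) fun i _ =>
      (integrable_cont ((hcoord i).mul (continuous_of_sm hG))).const_mul (a i)
  rw [h3, h4, Finset.mul_sum]
  refine Finset.sum_congr rfl fun i _ => ?_
  rw [integral_const_mul, integral_const_mul, integral_sum_dd hG i]
  ring

theorem star {q : S4 → ℝ} {b : E5} (hq : Sm q) (hb : ‖b‖ < 1)
    (h : ∀ a : E5, ∫ y, dd q y a * bubv b y ∂sig = 0) (a : E5) :
    ∫ y : S4, q y * bubv b y * (uu b y * (⟪a, (y : E5)⟫_ℝ - ⟪b, a⟫_ℝ)) ∂sig = 0 := by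
  have hβ := sm_bubv hb
  have hq' := continuous_of_sm hq
  have hβ' := continuous_of_sm hβ
  have hu' := continuous_of_sm (sm_uu hb)
  have hi : ∀ c : E5, Continuous fun y : S4 => ⟪c, (y : E5)⟫_ℝ := fun c =>
    continuous_of_sm (sm_inner c)
  have h1 := integral_dd (sm_mul hq hβ) a
  have h2 : ∀ y, dd (fun x => q x * bubv b x) y a =
      q y * dd (bubv b) y a + dd q y a * bubv b y := by
    intro y
    rw [dd_mul hq hβ]
    ring
  simp only [h2] at h1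
  rw [integral_add, h a, add_zero] at h1
  rotate_left
  · exact integrable_cont (hq'.mul (continuous_of_sm (sm_dd hβ a)))
  · exact integrable_cont ((continuous_of_sm (sm_dd hq a)).mul hβ')
  have h3 : ∀ y : S4, q y * bubv b y * (uu b y * (⟪a, (y : E5)⟫_ℝ - ⟪b, a⟫_ℝ)) =
      ⟪a, (y : E5)⟫_ℝ * (q y * bubv b y) - (1 / 4) * (q y * dd (bubv b) y a) := by
    intro y
    rw [dd_bubv hb, real_inner_comm a (y : E5)]
    have h4 := uu_mul hb y
    have h5 : ⟪a, (y : E5)⟫_ℝ = ⟪a, (y : E5)⟫_ℝ * (uu b y * (1 - ⟪b, (y : E5)⟫_ℝ)) := by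
      rw [h4, mul_one]
    have h6 : ⟪a, (y : E5)⟫_ℝ * (q y * bubv b y) =
        ⟪a, (y : E5)⟫_ℝ * (uu b y * (1 - ⟪b, (y : E5)⟫_ℝ)) * (q y * bubv b y) := by
      rw [← h5]
    rw [h6]
    ring
  simp only [h3]
  rw [integral_sub, integral_const_mul, h1]
  · ring
  · exact integrable_cont ((hi a).mul (hq'.mul hβ'))
  · exact (integrable_cont (hq'.mul (continuous_of_sm (sm_dd hβ a)))).const_mul _

theorem hasDeriv_bubv (b v : E5) (y : S4) (t : ℝ) (ht : 1 - ⟪b + t • v, (y : E5)⟫_ℝ ≠ 0) :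
    HasDerivAt (fun s : ℝ => bubv (b + s • v) y)
      (-(4 * (1 - ‖b + t • v‖ ^ 2) * ⟪b + t • v, v⟫_ℝ) / (1 - ⟪b + t • v, (y : E5)⟫_ℝ) ^ 4 +
        4 * (1 - ‖b + t • v‖ ^ 2) ^ 2 * ⟪v, (y : E5)⟫_ℝ /
          (1 - ⟪b + t • v, (y : E5)⟫_ℝ) ^ 5) t := by
  have h1 : HasDerivAt (fun s : ℝ => b + s • v) v t := by
    have := ((hasDerivAt_id t).smul_const v).const_add b
    simpa using this
  have h2 : HasDerivAt (fun s : ℝ => ‖b + s • v‖ ^ 2) (2 * ⟪b + t • v, v⟫_ℝ) t := by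
    have := h1.norm_sq
    simpa using this
  have h3 : HasDerivAt (fun s : ℝ => ⟪b + s • v, (y : E5)⟫_ℝ) ⟪v, (y : E5)⟫_ℝ t := by
    have := h1.inner ℝ (hasDerivAt_const t (y : E5))
    simpa using this
  have h4 : HasDerivAt (fun s : ℝ => (1 - ‖b + s • v‖ ^ 2) ^ 2)
      (2 * (1 - ‖b + t • v‖ ^ 2) * -(2 * ⟪b + t • v, v⟫_ℝ)) t := by
    have := (h2.const_sub 1).fun_pow 2
    simpa using this
  have h5 : HasDerivAt (fun s : ℝ => (1 - ⟪b + s • v, (y : E5)⟫_ℝ) ^ 4)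
      (4 * (1 - ⟪b + t • v, (y : E5)⟫_ℝ) ^ 3 * -⟪v, (y : E5)⟫_ℝ) t := by
    have := (h3.const_sub 1).fun_pow 4
    simpa using this
  have h6 := h4.div h5 (pow_ne_zero 4 ht)
  refine HasDerivAt.congr_deriv h6 ?_
  field_simp
  ring

theorem hasDeriv_HH {Q : S4 → ℝ} (hQ : Sm Q) (h0 : ∀ x, 0 < Q x) {b : E5} (hb : ‖b‖ < 1) (v : E5) :
    HasDerivAt (fun s : ℝ => HH Q (b + s • v))
      ((∫ y : S4, Real.log (Q y) * (-(4 * (1 - ‖b‖ ^ 2) * ⟪b, v⟫_ℝ) /
          (1 - ⟪b, (y : E5)⟫_ℝ) ^ 4 +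
        4 * (1 - ‖b‖ ^ 2) ^ 2 * ⟪v, (y : E5)⟫_ℝ / (1 - ⟪b, (y : E5)⟫_ℝ) ^ 5) ∂sig) / msig) 0 := by
  set ρ : ℝ := (1 + ‖b‖) / 2 with hρ
  have hρ1 : ρ < 1 := by rw [hρ]; linarith
  have hρb : ‖b‖ < ρ := by rw [hρ]; linarith
  have hρ0 : 0 < 1 - ρ := by linarith
  set S : Set ℝ := {t : ℝ | ‖b + t • v‖ < ρ} with hS
  have hSo : IsOpen S := isOpen_lt (by fun_prop) continuous_const
  have hS0 : S ∈ 𝓝 (0 : ℝ) := hSo.mem_nhds (by simpa [hS] using hρb)
  have hpos : ∀ t ∈ S, ∀ y : S4, 1 - ρ ≤ 1 - ⟪b + t • v, (y : E5)⟫_ℝ := by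
    intro t ht y
    have h1 := (abs_le.1 (inner_le' (b + t • v) y)).2
    have h2 : ‖b + t • v‖ < ρ := ht
    linarith
  have hq := sm_log hQ h0
  have hq' := continuous_of_sm hq
  have hcb : ∀ t ∈ S, Continuous (fun y : S4 => Real.log (Q y) * bubv (b + t • v) y) := by
    intro t ht
    have h2 : ‖b + t • v‖ < ρ := ht
    exact hq'.mul (continuous_of_sm (sm_bubv (by linarith)))
  have hi : ∀ c : E5, Continuous fun y : S4 => ⟪c, (y : E5)⟫_ℝ := fun c =>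
    continuous_of_sm (sm_inner c)
  have hmain := hasDerivAt_integral_of_dominated_loc_of_deriv_le (μ := sig) (s := S)
    (F := fun (t : ℝ) (y : S4) => Real.log (Q y) * bubv (b + t • v) y)
    (F' := fun (t : ℝ) (y : S4) => Real.log (Q y) *
      (-(4 * (1 - ‖b + t • v‖ ^ 2) * ⟪b + t • v, v⟫_ℝ) / (1 - ⟪b + t • v, (y : E5)⟫_ℝ) ^ 4 +
        4 * (1 - ‖b + t • v‖ ^ 2) ^ 2 * ⟪v, (y : E5)⟫_ℝ /
          (1 - ⟪b + t • v, (y : E5)⟫_ℝ) ^ 5))
    (bound := fun y => |Real.log (Q y)| *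
      (4 * ‖v‖ / (1 - ρ) ^ 4 + 4 * ‖v‖ / (1 - ρ) ^ 5)) (x₀ := 0) hS0 ?_ ?_ ?_ ?_ ?_ ?_
  · have h7 := hmain.2.div_const msig
    simpa [HH] using h7
  · filter_upwards [hS0] with t ht
    exact (integrable_cont (hcb t ht)).aestronglyMeasurable
  · exact integrable_cont (hcb 0 (mem_of_mem_nhds hS0))
  · have hne : ∀ y : S4, (1 - ⟪b + (0 : ℝ) • v, (y : E5)⟫_ℝ) ≠ 0 := by
      intro y
      have := hpos 0 (mem_of_mem_nhds hS0) y
      exact (by linarith : 0 < 1 - ⟪b + (0 : ℝ) • v, (y : E5)⟫_ℝ).ne'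
    refine (integrable_cont (hq'.mul ?_)).aestronglyMeasurable
    refine Continuous.add ?_ ?_
    · exact continuous_const.div ((continuous_const.sub (hi _)).pow 4) fun y =>
        pow_ne_zero 4 (hne y)
    · exact (continuous_const.mul (hi v)).div ((continuous_const.sub (hi _)).pow 5) fun y =>
        pow_ne_zero 5 (hne y)
  · refine Eventually.of_forall fun y t ht => ?_
    have hw := hpos t ht y
    have hw0 : 0 < 1 - ⟪b + t • v, (y : E5)⟫_ℝ := by linarith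
    have hn : ‖b + t • v‖ < ρ := ht
    have hn0 := norm_nonneg (b + t • v)
    have hv0 := norm_nonneg v
    have h8 : 0 ≤ 1 - ‖b + t • v‖ ^ 2 := by nlinarith
    have h9 : 1 - ‖b + t • v‖ ^ 2 ≤ 1 := by nlinarith [sq_nonneg ‖b + t • v‖]
    have h10 : |⟪b + t • v, v⟫_ℝ| ≤ ‖v‖ := by
      refine (abs_real_inner_le_norm _ _).trans ?_
      nlinarith
    have h11 := inner_le' v y
    rw [Real.norm_eq_abs, abs_mul]
    refine mul_le_mul_of_nonneg_left ?_ (abs_nonneg _)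
    refine (abs_add_le _ _).trans (add_le_add ?_ ?_)
    · rw [abs_div, abs_neg, abs_mul, abs_mul, abs_of_nonneg h8, abs_of_pos (by norm_num : (0 : ℝ) < 4),
        abs_of_pos (pow_pos hw0 4)]
      refine div_le_div₀ (by positivity) ?_ (pow_pos hρ0 4)
        (pow_le_pow_left₀ hρ0.le hw 4)
      nlinarith [abs_nonneg ⟪b + t • v, v⟫_ℝ]
    · have h12 : (1 - ‖b + t • v‖ ^ 2) ^ 2 ≤ 1 := by nlinarith
      have h13 : 0 ≤ (1 - ‖b + t • v‖ ^ 2) ^ 2 := sq_nonneg _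
      rw [abs_div, abs_mul, abs_mul, abs_of_nonneg h13, abs_of_pos (by norm_num : (0 : ℝ) < 4),
        abs_of_pos (pow_pos hw0 5)]
      refine div_le_div₀ (by positivity) ?_ (pow_pos hρ0 5)
        (pow_le_pow_left₀ hρ0.le hw 5)
      nlinarith [abs_nonneg ⟪v, (y : E5)⟫_ℝ]
  · exact (integrable_cont hq'.abs).mul_const _
  · refine Eventually.of_forall fun y t ht => ?_
    have hw := hpos t ht y
    exact (hasDeriv_bubv b v y t (by linarith : 0 < 1 - ⟪b + t • v, (y : E5)⟫_ℝ).ne').const_mul _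

theorem inx (moa : MoaStmt) (mom : MomStmt) : InxStmt := by
  intro Q b hQ h0 hb h
  have hq := sm_log hQ h0
  have hq' := continuous_of_sm hq
  have hnb : ‖-b‖ < 1 := by rwa [norm_neg]
  -- change of variables
  have hA : ∀ a : E5, ∫ y, dd (fun z => Real.log (Q z)) y a * bubv b y ∂sig = 0 := by
    intro a
    have h1 := mom (-b) hnb (fun y => dlog Q (mob b y) a)
    rw [h a] at h1
    rw [← h1]
    congr 1
    funext y
    have h2 : mob b (mob (-b) y) = y := by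
      have := (moa (-b) hnb).2.2.2.1 y
      rwa [neg_neg] at this
    have h3 : Jac (-b) y = bubv b y := by
      unfold Jac bubv
      rw [norm_neg, inner_neg_left, ← sub_eq_add_neg]
    simp only [h2, h3]
    rfl
  have hu' := continuous_of_sm (sm_uu hb)
  have hβ' := continuous_of_sm (sm_bubv hb)
  have hi : ∀ c : E5, Continuous fun y : S4 => ⟪c, (y : E5)⟫_ℝ := fun c =>
    continuous_of_sm (sm_inner c)
  have hb2 : 0 < 1 - ‖b‖ ^ 2 := by nlinarith [norm_nonneg b]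
  set q : S4 → ℝ := fun z => Real.log (Q z) with hqd
  have hst := star hq hb hA
  -- I₁ v = <b, v> I₀
  have hcI : ∀ c : E5, Continuous fun y : S4 => q y * bubv b y * (uu b y * ⟪c, (y : E5)⟫_ℝ) :=
    fun c => (hq'.mul hβ').mul (hu'.mul (hi c))
  have hcI0 : Continuous fun y : S4 => q y * bubv b y * uu b y := (hq'.mul hβ').mul hu'
  have hcJ : Continuous fun y : S4 => q y * bubv b y := hq'.mul hβ'
  have hI1 : ∀ c : E5, ∫ y : S4, q y * bubv b y * (uu b y * ⟪c, (y : E5)⟫_ℝ) ∂sig =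
      ⟪b, c⟫_ℝ * ∫ y, q y * bubv b y * uu b y ∂sig := by
    intro c
    have h1 := hst c
    have h2 : ∀ y : S4, q y * bubv b y * (uu b y * (⟪c, (y : E5)⟫_ℝ - ⟪b, c⟫_ℝ)) =
        q y * bubv b y * (uu b y * ⟪c, (y : E5)⟫_ℝ) - ⟪b, c⟫_ℝ * (q y * bubv b y * uu b y) := by
      intro y
      ring
    simp only [h2] at h1
    rw [integral_sub (integrable_cont (hcI c)) ((integrable_cont hcI0).const_mul _),
      integral_const_mul] at h1
    linarith
  have hJ : ∫ y, q y * bubv b y ∂sig = (1 - ‖b‖ ^ 2) * ∫ y, q y * bubv b y * uu b y ∂sig := by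
    have h1 := hI1 b
    have h2 : ∀ y : S4, q y * bubv b y * (uu b y * ⟪b, (y : E5)⟫_ℝ) =
        q y * bubv b y * uu b y - q y * bubv b y := by
      intro y
      have h3 := uu_mul hb y
      have h4 : uu b y * ⟪b, (y : E5)⟫_ℝ = uu b y - 1 := by linarith
      rw [h4]
      ring
    simp only [h2] at h1
    rw [integral_sub (integrable_cont hcI0) (integrable_cont hcJ),
      real_inner_self_eq_norm_sq] at h1
    linarith
  by_cases hd : DifferentiableAt ℝ (HH Q) b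
  · ext v
    have h1 := hasDeriv_HH hQ h0 hb v
    have h2 : HasDerivAt (fun s : ℝ => HH Q (b + s • v)) (fderiv ℝ (HH Q) b v) 0 := by
      have h3 : HasDerivAt (fun s : ℝ => b + s • v) v 0 := by
        have := ((hasDerivAt_id (0 : ℝ)).smul_const v).const_add b
        simpa using this
      have h4 : HasFDerivAt (HH Q) (fderiv ℝ (HH Q) b) (b + (0 : ℝ) • v) := by
        simpa using hd.hasFDerivAt
      exact h4.comp_hasDerivAt (0 : ℝ) h3
    have h3 := h2.unique h1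
    rw [h3]
    have h4 : ∀ y : S4, Real.log (Q y) * (-(4 * (1 - ‖b‖ ^ 2) * ⟪b, v⟫_ℝ) /
          (1 - ⟪b, (y : E5)⟫_ℝ) ^ 4 +
        4 * (1 - ‖b‖ ^ 2) ^ 2 * ⟪v, (y : E5)⟫_ℝ / (1 - ⟪b, (y : E5)⟫_ℝ) ^ 5) =
        4 * (q y * bubv b y * (uu b y * ⟪v, (y : E5)⟫_ℝ)) -
          4 * ⟪b, v⟫_ℝ / (1 - ‖b‖ ^ 2) * (q y * bubv b y) := by
      intro y
      have h5 := (one_sub_pos hb y).ne'
      have h6 := hb2.ne'
      simp only [hqd, bubv, uu]
      field_simp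
      ring
    simp only [h4]
    rw [integral_sub ((integrable_cont (hcI v)).const_mul _)
      ((integrable_cont hcJ).const_mul _), integral_const_mul, integral_const_mul,
      hI1 v, hJ]
    have h6 := hb2.ne'
    have h7 : 4 * (⟪b, v⟫_ℝ * ∫ y, q y * bubv b y * uu b y ∂sig) -
        4 * ⟪b, v⟫_ℝ / (1 - ‖b‖ ^ 2) *
          ((1 - ‖b‖ ^ 2) * ∫ y, q y * bubv b y * uu b y ∂sig) = 0 := by
      field_simp
      ring
    rw [h7]
    simp
  · exact fderiv_zero_of_not_differentiableAt hd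

end Pool.Agent.PQP.H3
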